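import Pool.Agent.helper8.GD.Spec

/-!
# gd:G3, bounds for `Gs`
-/

set_option autoImplicit false

namespace GD

open Finset ArithmeticFunction

theorem G3_mem {w : ℕ} {z : ℝ} {l : ℕ} (hw : 2 ≤ w) (hl : l ∈ Qs w z) : 7 ≤ l := by
  unfold Qs at hl
  rw [mem_filter] at hl
  obtain ⟨-, -, h1, h2⟩ := hl
  omega

theorem G3_hh_nonneg {w : ℕ} {z : ℝ} (hw : 2 ≤ w) {K : Finset ℕ} (hK : K ⊆ Qs w z) :
    0 ≤ hh K := by
  unfold hh
  refine Finset.prod_nonneg fun l hl => ?_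
  have h7 : (7 : ℝ) ≤ l := by exact_mod_cast G3_mem hw (hK hl)
  exact div_nonneg (by norm_num) (by linarith)

theorem G3_sq (Q : Finset ℕ) (hQ : ∀ l ∈ Q, 7 ≤ l) : ∑ l ∈ Q, 8 / (l : ℝ) ^ 2 ≤ 16 := by
  obtain ⟨n, hn⟩ : ∃ n : ℕ, Q ⊆ Ioo 0 n := by
    refine ⟨Q.sup id + 1, fun l hl => ?_⟩
    rw [mem_Ioo]
    have h1 := hQ l hl
    have h2 : l ≤ Q.sup id := Finset.le_sup (f := id) hl
    omega
  have h1 : ∑ l ∈ Q, 8 / (l : ℝ) ^ 2 ≤ ∑ l ∈ Ioo 0 n, 8 / (l : ℝ) ^ 2 :=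
    Finset.sum_le_sum_of_subset_of_nonneg hn fun _ _ _ => by positivity
  have h2 : ∑ l ∈ Ioo 0 n, 8 / (l : ℝ) ^ 2 = 8 * ∑ l ∈ Ioo 0 n, ((l : ℝ) ^ 2)⁻¹ := by
    rw [Finset.mul_sum]
    exact Finset.sum_congr rfl fun l _ => by rw [div_eq_mul_inv]
  have h3 : (∑ l ∈ Ioo 0 n, ((l : ℝ) ^ 2)⁻¹) ≤ 2 / ((0 : ℕ) + 1 : ℝ) := sum_Ioo_inv_sq_le 0 n
  norm_num at h3
  rw [h2] at h1
  have h4 : (∑ l ∈ Ioo 0 n, ((l : ℝ) ^ 2)⁻¹) ≤ 2 := by
    simpa using h3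
  linarith

theorem G3 (h2 : G2_stmt) : G3_stmt := by
  obtain ⟨C₂, hC₂, hG2⟩ := h2
  refine ⟨Real.exp (16 + C₂ / Real.log 2), Real.exp_pos _, ?_⟩
  intro w z R hw hwz hR
  have hl2 : 0 < Real.log 2 := Real.log_pos (by norm_num)
  have hwr : (2 : ℝ) ≤ w := by exact_mod_cast hw
  have hlw : Real.log 2 ≤ Real.log w := Real.log_le_log (by norm_num) hwr
  have hlw0 : 0 < Real.log w := lt_of_lt_of_le hl2 hlw
  have hlz : Real.log w ≤ Real.log z := Real.log_le_log (by linarith) hwz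
  have hlz0 : 0 < Real.log z := lt_of_lt_of_le hlw0 hlz
  constructor
  · unfold Gs
    have hmem : (∅ : Finset ℕ) ∈ Sub (Qs w z) R := by
      unfold Sub
      rw [mem_filter]
      refine ⟨Finset.empty_mem_powerset _, ?_⟩
      simpa [pr] using hR
    have h3 : hh ∅ = 1 := by simp [hh]
    rw [← h3]
    refine Finset.single_le_sum (f := hh) (fun K hK => ?_) hmem
    unfold Sub at hK
    rw [mem_filter, mem_powerset] at hK
    exact G3_hh_nonneg hw hK.1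
  · have h3 : Gs (Qs w z) R ≤ ∑ K ∈ (Qs w z).powerset, hh K := by
      unfold Gs Sub
      refine Finset.sum_le_sum_of_subset_of_nonneg (Finset.filter_subset _ _) fun K hK _ => ?_
      rw [mem_powerset] at hK
      exact G3_hh_nonneg hw hK
    have h4 : ∑ K ∈ (Qs w z).powerset, hh K = ∏ l ∈ Qs w z, (1 + 2 / ((l : ℝ) - 2)) := by
      rw [Finset.prod_one_add]
      rfl
    have h5 : ∏ l ∈ Qs w z, (1 + 2 / ((l : ℝ) - 2)) ≤
        ∏ l ∈ Qs w z, Real.exp (2 / (l : ℝ) + 8 / (l : ℝ) ^ 2) := by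
      refine Finset.prod_le_prod (fun l hl => ?_) (fun l hl => ?_)
      · have h7 : (7 : ℝ) ≤ l := by exact_mod_cast G3_mem hw hl
        have : 0 ≤ 2 / ((l : ℝ) - 2) := div_nonneg (by norm_num) (by linarith)
        linarith
      · have h7 : (7 : ℝ) ≤ l := by exact_mod_cast G3_mem hw hl
        have h8 : 2 / ((l : ℝ) - 2) ≤ 2 / (l : ℝ) + 8 / (l : ℝ) ^ 2 := by
          have e1 : 2 / (l : ℝ) + 8 / (l : ℝ) ^ 2 = (2 * l + 8) / (l : ℝ) ^ 2 := by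
            field_simp
          rw [e1, div_le_div_iff₀ (by linarith) (by positivity)]
          nlinarith
        have h9 := Real.add_one_le_exp (2 / (l : ℝ) + 8 / (l : ℝ) ^ 2)
        linarith
    have h6 : ∏ l ∈ Qs w z, Real.exp (2 / (l : ℝ) + 8 / (l : ℝ) ^ 2) =
        Real.exp (∑ l ∈ Qs w z, 2 / (l : ℝ) + ∑ l ∈ Qs w z, 8 / (l : ℝ) ^ 2) := by
      rw [← Finset.sum_add_distrib, Real.exp_sum]
    have h7 := G3_sq (Qs w z) fun l hl => G3_mem hw hl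
    have h8 := (abs_le.1 (hG2 w z hw hwz)).2
    have h9 : C₂ / Real.log w ≤ C₂ / Real.log 2 := div_le_div_of_nonneg_left hC₂.le hl2 hlw
    have h10 : ∑ l ∈ Qs w z, 2 / (l : ℝ) + ∑ l ∈ Qs w z, 8 / (l : ℝ) ^ 2 ≤
        (16 + C₂ / Real.log 2) + (Real.log (Real.log z) - Real.log (Real.log w)) := by
      linarith
    calc Gs (Qs w z) R ≤ Real.exp (∑ l ∈ Qs w z, 2 / (l : ℝ) + ∑ l ∈ Qs w z, 8 / (l : ℝ) ^ 2) := by
          rw [← h6]; exact h3.trans (h4.le.trans h5)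
      _ ≤ Real.exp ((16 + C₂ / Real.log 2) + (Real.log (Real.log z) - Real.log (Real.log w))) :=
          Real.exp_le_exp.2 h10
      _ = Real.exp (16 + C₂ / Real.log 2) * Real.log z / Real.log w := by
          rw [Real.exp_add, Real.exp_sub, Real.exp_log hlz0, Real.exp_log hlw0]
          ring

end GD
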